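import Mathlib.ModelTheory.ElementaryMaps
import Mathlib.Data.Finite.Sum

/-!
# Back-and-forth for finite sublanguages, and elementary embeddings

Structures on `ℕ` with countably many binary relations, coded as in the frozen statement S14345.
-/

set_option autoImplicit false

namespace Q202.EE

open FirstOrder FirstOrder.Language

/-- the language with the binary relation symbols `R_i`, `i ∈ ℕ` -/
abbrev Lg : FirstOrder.Language :=
  FirstOrder.Language.mk (fun _ => PEmpty.{1}) (fun n => {i : ℕ // (fun _ : ℕ => 2) i = n})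

/-- the structure with the code `u` -/
@[reducible] def str (u : ∀ _ : ℕ, (Fin 2 → ℕ) → Bool) : Lg.Structure ℕ :=
  @FirstOrder.Language.Structure.mk Lg ℕ (fun f _ => PEmpty.elim f)
    (fun r xs => u (Subtype.val r) (xs ∘ Fin.cast (Subtype.property r)) = true)

/-- elementary embeddability of the coded structures -/
def Emb (u v : ∀ _ : ℕ, (Fin 2 → ℕ) → Bool) : Prop :=
  Nonempty (@FirstOrder.Language.ElementaryEmbedding Lg ℕ ℕ (str u) (str v))

/-- the tuples `a` and `b` have the same atomic type for the relations with indices in `G` -/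
def Agree (G : Finset ℕ) (u v : ∀ _ : ℕ, (Fin 2 → ℕ) → Bool) {β : Type} (a b : β → ℕ) : Prop :=
  (∀ p q, a p = a q ↔ b p = b q) ∧
    ∀ i ∈ G, ∀ p q, (u i ![a p, a q] = true ↔ v i ![b p, b q] = true)

variable {u v : ∀ _ : ℕ, (Fin 2 → ℕ) → Bool}

theorem Agree.symm {G : Finset ℕ} {β : Type} {a b : β → ℕ} (h : Agree G u v a b) :
    Agree G v u b a :=
  ⟨fun p q => (h.1 p q).symm, fun i hi p q => (h.2 i hi p q).symm⟩

theorem Agree.mono {G G' : Finset ℕ} (hG : G ⊆ G') {β : Type} {a b : β → ℕ}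
    (h : Agree G' u v a b) : Agree G u v a b :=
  ⟨h.1, fun i hi p q => h.2 i (hG hi) p q⟩

theorem Agree.comp {G : Finset ℕ} {β γ : Type} {a b : β → ℕ} (h : Agree G u v a b) (g : γ → β) :
    Agree G u v (a ∘ g) (b ∘ g) :=
  ⟨fun p q => h.1 (g p) (g q), fun i hi p q => h.2 i hi (g p) (g q)⟩

/-- the forth property -/
def Ext (u v : ∀ _ : ℕ, (Fin 2 → ℕ) → Bool) : Prop :=
  ∀ (G : Finset ℕ) (β : Type) (_ : Finite β) (a b : β → ℕ), Agree G u v a b →
    ∀ c : ℕ, ∃ d : ℕ, Agree G u v (fun o : Option β => o.elim c a) (fun o => o.elim d b)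

theorem term_eq_var {α : Type} (t : Lg.Term α) : ∃ p, t = Term.var p := by
  cases t with
  | var p => exact ⟨p, rfl⟩
  | func f _ => exact f.elim

theorem realize_snoc_elim {α : Type} {n : ℕ} (a : α → ℕ) (xs : Fin n → ℕ) (c : ℕ) :
    (Sum.elim a (Fin.snoc xs c : Fin (n + 1) → ℕ)) =
      (fun o : Option (α ⊕ Fin n) => o.elim c (Sum.elim a xs)) ∘
        (Sum.elim (fun i => some (Sum.inl i))
          (Fin.lastCases none (fun i => some (Sum.inr i))) :
            α ⊕ Fin (n + 1) → Option (α ⊕ Fin n)) := by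
  funext p
  rcases p with p | p
  · rfl
  · refine Fin.lastCases ?_ (fun i => ?_) p
    · simp
    · simp

theorem realize_iff (hE : Ext u v) (hE' : Ext v u) {α : Type} [Finite α] {n : ℕ}
    (φ : Lg.BoundedFormula α n) : ∃ G : Finset ℕ, ∀ (a b : α → ℕ) (xs ys : Fin n → ℕ),
      Agree G u v (Sum.elim a xs) (Sum.elim b ys) →
      (@BoundedFormula.Realize Lg ℕ (str u) α n φ a xs ↔
        @BoundedFormula.Realize Lg ℕ (str v) α n φ b ys) := by
  induction φ with
  | falsum => exact ⟨∅, fun a b xs ys _ => Iff.rfl⟩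
  | equal t₁ t₂ =>
    obtain ⟨p, rfl⟩ := term_eq_var t₁
    obtain ⟨q, rfl⟩ := term_eq_var t₂
    exact ⟨∅, fun a b xs ys h => h.1 p q⟩
  | @rel n l R ts =>
    obtain ⟨i, hi⟩ := R
    have hi2 : 2 = l := hi
    subst hi2
    choose p hp using fun j => term_eq_var (ts j)
    refine ⟨{i}, fun a b xs ys h => ?_⟩
    have h1 := h.2 i (Finset.mem_singleton_self i) (p 0) (p 1)
    have key : ∀ (w : ∀ _ : ℕ, (Fin 2 → ℕ) → Bool) (c : α → ℕ) (zs : Fin n → ℕ),
        @BoundedFormula.Realize Lg ℕ (str w) α n (BoundedFormula.rel ⟨i, hi⟩ ts) c zs ↔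
          w i ![Sum.elim c zs (p 0), Sum.elim c zs (p 1)] = true := by
      intro w c zs
      have e : (fun j => @Term.realize Lg ℕ (str w) _ (Sum.elim c zs) (ts j)) =
          ![Sum.elim c zs (p 0), Sum.elim c zs (p 1)] := by
        funext j
        rw [hp j]
        refine Fin.cases ?_ (fun j => ?_) j
        · rfl
        · rw [Fin.fin_one_eq_zero j]; rfl
      change w i ((fun j => @Term.realize Lg ℕ (str w) _ (Sum.elim c zs) (ts j)) ∘
        Fin.cast hi) = true ↔ _
      rw [e]
      rfl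
    rw [key, key]
    exact h1
  | imp φ ψ h1 h2 =>
    obtain ⟨G1, h1⟩ := h1
    obtain ⟨G2, h2⟩ := h2
    refine ⟨G1 ∪ G2, fun a b xs ys h => ?_⟩
    have e1 := h1 a b xs ys (h.mono Finset.subset_union_left)
    have e2 := h2 a b xs ys (h.mono Finset.subset_union_right)
    change (_ → _) ↔ (_ → _)
    rw [e1, e2]
  | @all n φ ih =>
    obtain ⟨G, ih⟩ := ih
    refine ⟨G, fun a b xs ys h => ?_⟩
    change (∀ c, _) ↔ (∀ c, _)
    constructor
    · intro hall d
      obtain ⟨c, hc⟩ := hE' G _ inferInstance _ _ h.symm d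
      have h3 := hc.symm.comp (Sum.elim (fun i => some (Sum.inl i))
          (Fin.lastCases none (fun i => some (Sum.inr i))) :
            α ⊕ Fin (n + 1) → Option (α ⊕ Fin n))
      rw [← realize_snoc_elim, ← realize_snoc_elim] at h3
      exact (ih a b _ _ h3).1 (hall c)
    · intro hall c
      obtain ⟨d, hd⟩ := hE G _ inferInstance _ _ h c
      have h3 := hd.comp (Sum.elim (fun i => some (Sum.inl i))
          (Fin.lastCases none (fun i => some (Sum.inr i))) :
            α ⊕ Fin (n + 1) → Option (α ⊕ Fin n))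
      rw [← realize_snoc_elim, ← realize_snoc_elim] at h3
      exact (ih a b _ _ h3).2 (hall d)

/-- an embedding between structures with the forth and back properties is elementary -/
theorem emb_of_map (hE : Ext u v) (hE' : Ext v u) (e : ℕ → ℕ) (he : Function.Injective e)
    (hr : ∀ i p q, u i ![p, q] = true ↔ v i ![e p, e q] = true) : Emb u v := by
  refine ⟨@ElementaryEmbedding.mk Lg ℕ ℕ (str u) (str v) e ?_⟩
  intro n φ x
  obtain ⟨G, hG⟩ := realize_iff hE hE' (α := Fin n) φ
  unfold Formula.Realize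
  refine (hG x (e ∘ x) _ _ ⟨fun p q => ?_, fun i _ p q => ?_⟩).symm
  · rcases p with p | p
    · rcases q with q | q
      · exact he.eq_iff.symm
      · exact q.elim0
    · exact p.elim0
  · rcases p with p | p
    · rcases q with q | q
      · exact hr i _ _
      · exact q.elim0
    · exact p.elim0

/-- elementary embeddings are injective and respect the relations -/
theorem Emb.exists_map (h : Emb u v) : ∃ e : ℕ → ℕ, Function.Injective e ∧
    ∀ i p q, u i ![p, q] = true ↔ v i ![e p, e q] = true := by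
  obtain ⟨E⟩ := h
  let _ : Lg.Structure ℕ := str u
  refine ⟨E, @ElementaryEmbedding.injective Lg ℕ ℕ (str u) (str v) E, fun i p q => ?_⟩
  have h1 := @ElementaryEmbedding.map_rel Lg ℕ ℕ (str u) (str v) E 2 ⟨i, rfl⟩ ![p, q]
  have e1 : (E ∘ ![p, q]) = ![E p, E q] := by
    funext j
    refine Fin.cases ?_ (fun j => ?_) j
    · rfl
    · rw [Fin.fin_one_eq_zero j]; rfl
  rw [e1] at h1
  exact h1.symm

/-- an isomorphism gives an elementary embedding -/
theorem emb_of_perm (π : Equiv.Perm ℕ) (hr : ∀ i p q, u i ![p, q] = true ↔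
    v i ![π p, π q] = true) : Emb u v := by
  let E : @FirstOrder.Language.Equiv Lg ℕ ℕ (str u) (str v) :=
    @FirstOrder.Language.Equiv.mk Lg ℕ ℕ (str u) (str v) π (fun f _ => f.elim) (by
      intro n r x
      obtain ⟨i, hi⟩ := r
      have hi2 : 2 = n := hi
      subst hi2
      have e1 : ∀ w : Fin 2 → ℕ, w ∘ Fin.cast hi = ![w 0, w 1] := by
        intro w
        funext j
        refine Fin.cases ?_ (fun j => ?_) j
        · rfl
        · rw [Fin.fin_one_eq_zero j]; rfl
      change v i ((π ∘ x) ∘ Fin.cast hi) = true ↔ u i (x ∘ Fin.cast hi) = true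
      rw [e1, e1]
      exact (hr i _ _).symm)
  exact ⟨@FirstOrder.Language.Equiv.toElementaryEmbedding Lg ℕ ℕ (str u) (str v) E⟩

theorem Emb.trans {w : ∀ _ : ℕ, (Fin 2 → ℕ) → Bool} (h : Emb u v) (h' : Emb v w) : Emb u w := by
  obtain ⟨E⟩ := h
  obtain ⟨E'⟩ := h'
  exact ⟨@FirstOrder.Language.ElementaryEmbedding.comp Lg ℕ ℕ ℕ (str u) (str v) (str w) E' E⟩

end Q202.EE
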