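import Pool.Agent.Q202.EE.Str

/-!
# The forth property for the coding structures, and the structures on `ℕ`
-/

set_option autoImplicit false

namespace Q202.EE

open Classical

variable {f : (ℕ → ℕ) → (ℕ → Bool) × (ℕ → Bool)}

theorem forth (x y : ℕ → Bool) (G : Finset (ℕ ⊕ K)) {β : Type} [Finite β] (a b : β → Om)
    (hab : ∀ p q, a p = a q ↔ b p = b q)
    (hr : ∀ r ∈ G, ∀ p q, Rel f x r (a p) (a q) ↔ Rel f y r (b p) (b q)) (c : Om) :
    ∃ d : Om, (∀ p, c = a p ↔ d = b p) ∧ ∀ r ∈ G, (Rel f x r c c ↔ Rel f y r d d) ∧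
      ∀ p, (Rel f x r c (a p) ↔ Rel f y r d (b p)) ∧ (Rel f x r (a p) c ↔ Rel f y r (b p) d) := by
  by_cases hc : ∃ p, c = a p
  · obtain ⟨p₀, rfl⟩ := hc
    exact ⟨b p₀, fun p => hab p₀ p, fun r hr' => ⟨hr r hr' p₀ p₀, fun p =>
      ⟨hr r hr' p₀ p, hr r hr' p p₀⟩⟩⟩
  · push Not at hc
    have := Fintype.ofFinite β
    -- a fresh value for the coordinates
    let n := c.1.length
    obtain ⟨N, hN⟩ : ∃ N : ℕ, ∀ (p : β) (i : ℕ), i < n → lst (b p).1 i < N := by
      refine ⟨(Finset.univ.sup fun p : β => (Finset.range n).sup fun i => lst (b p).1 i) + 1,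
        fun p i hi => Nat.lt_succ_of_le ?_⟩
      exact (Finset.le_sup (f := fun i => lst (b p).1 i) (Finset.mem_range.2 hi)).trans
        (Finset.le_sup (f := fun p : β => (Finset.range n).sup fun i => lst (b p).1 i)
          (Finset.mem_univ p))
    let Q : ℕ → β → Prop := fun i p => Sum.inl i ∈ G ∧ i < (a p).1.length ∧
      lst c.1 i = lst (a p).1 i
    let g : ℕ → ℕ := fun i => if h : ∃ p, Q i p then lst (b h.choose).1 i else N
    let t : List ℕ := List.ofFn fun i : Fin n => g i
    have htl : t.length = n := List.length_ofFn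
    have ht : ∀ i < n, lst t i = g i := by
      intro i hi
      unfold lst
      rw [List.getD_eq_getElem _ _ (by rw [htl]; exact hi)]
      simp only [t, List.getElem_ofFn]
    -- the coordinate relations
    have hlen : ∀ i, Sum.inl i ∈ G → ∀ p, i < (a p).1.length ↔ i < (b p).1.length := by
      intro i hi p
      have h1 := hr _ hi p p
      change (_ ∧ _ ∧ _) ↔ (_ ∧ _ ∧ _) at h1
      constructor
      · intro h; exact (h1.1 ⟨h, h, rfl⟩).1
      · intro h; exact (h1.2 ⟨h, h, rfl⟩).1
    have hcoord : ∀ i, Sum.inl i ∈ G → i < n → ∀ p, i < (a p).1.length →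
        (lst c.1 i = lst (a p).1 i ↔ lst t i = lst (b p).1 i) := by
      intro i hi hin p hp
      have hpb : i < (b p).1.length := (hlen i hi p).1 hp
      rw [ht i hin]
      constructor
      · intro h
        have hex : ∃ p, Q i p := ⟨p, hi, hp, h⟩
        have h2 : g i = lst (b hex.choose).1 i := dif_pos hex
        obtain ⟨_, h3, h4⟩ := hex.choose_spec
        rw [h2]
        exact ((hr _ hi hex.choose p).1 ⟨h3, hp, h4.symm.trans h⟩).2.2
      · intro h
        by_cases hex : ∃ p, Q i p
        · have h2 : g i = lst (b hex.choose).1 i := dif_pos hex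
          obtain ⟨_, h3, h4⟩ := hex.choose_spec
          rw [h2] at h
          rw [h4]
          exact ((hr _ hi hex.choose p).2 ⟨(hlen i hi _).1 h3, hpb, h⟩).2.2
        · have h2 : g i = N := dif_neg hex
          rw [h2] at h
          exact absurd h (hN p i hin).ne'
    -- the colours
    let GK : Finset K := G.preimage Sum.inr Sum.inr_injective.injOn
    have hGK : ∀ k, k ∈ GK ↔ Sum.inr k ∈ G := fun k => Finset.mem_preimage
    let A : Finset K := GK.filter fun k => k ∈ ty f x c
    obtain ⟨k₀, hk₀, hk₀'⟩ : ∃ k₀, k₀ ∉ GK ∧ ∀ p, ((insert k₀ A : Finset K) : Set K) ≠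
        ty f y (b p) := by
      have h1 : (Set.univ \ (GK : Set K)).Infinite := Set.infinite_univ.sdiff GK.finite_toSet
      have h2 : ((fun k₀ => ((insert k₀ A : Finset K) : Set K)) ''
          (Set.univ \ (GK : Set K))).Infinite := by
        refine h1.image ?_
        intro k hk k' hk' h
        have h3 : insert k A = insert k' A := Finset.coe_injective h
        have h4 : k ∈ insert k' A := h3 ▸ Finset.mem_insert_self k A
        rcases Finset.mem_insert.1 h4 with h5 | h5
        · exact h5
        · exact absurd (Finset.mem_filter.1 h5).1 (fun h6 => hk.2 (Finset.mem_coe.2 h6))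
      obtain ⟨_, ⟨k₀, hk, rfl⟩, hk'⟩ := h2.exists_notMem_finite
        (Set.finite_range fun p => ty f y (b p))
      exact ⟨k₀, fun h => hk.2 (Finset.mem_coe.2 h), fun p h => hk' ⟨p, h.symm⟩⟩
    obtain ⟨c', hc'⟩ := ty_fin (f := f) y t (insert k₀ A)
    have hty : ∀ k ∈ GK, (k ∈ ty f x c ↔ k ∈ ty f y (t, c')) := by
      intro k hk
      rw [hc', Finset.mem_coe, Finset.mem_insert, Finset.mem_filter]
      constructor
      · intro h; exact Or.inr ⟨hk, h⟩
      · rintro (h | h)
        · exact absurd (h ▸ hk) hk₀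
        · exact h.2
    refine ⟨(t, c'), fun p => ⟨fun h => absurd h (hc p), fun h => ?_⟩, ?_⟩
    · exact absurd (by rw [← h, hc']) (hk₀' p)
    · rintro (i | k) hr'
      · refine ⟨?_, fun p => ⟨?_, ?_⟩⟩
        · change (i < n ∧ i < n ∧ lst c.1 i = lst c.1 i) ↔
            (i < t.length ∧ i < t.length ∧ lst t i = lst t i)
          rw [htl]
          exact ⟨fun h => ⟨h.1, h.2.1, rfl⟩, fun h => ⟨h.1, h.2.1, rfl⟩⟩
        · change (i < n ∧ i < (a p).1.length ∧ lst c.1 i = lst (a p).1 i) ↔
            (i < t.length ∧ i < (b p).1.length ∧ lst t i = lst (b p).1 i)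
          rw [htl, ← hlen i hr' p]
          exact and_congr_right fun h1 => and_congr_right fun h2 => hcoord i hr' h1 p h2
        · change (i < (a p).1.length ∧ i < n ∧ lst (a p).1 i = lst c.1 i) ↔
            (i < (b p).1.length ∧ i < t.length ∧ lst (b p).1 i = lst t i)
          rw [htl, ← hlen i hr' p]
          exact and_congr_right fun h2 => and_congr_right fun h1 => by
            rw [eq_comm, hcoord i hr' h1 p h2, eq_comm]
      · have hk := hty k ((hGK k).2 hr')
        refine ⟨hk, fun p => ⟨hk, ?_⟩⟩
        exact hr _ hr' p p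

/-! ### Structures on `ℕ` -/

/-- the enumeration of the relation symbols -/
noncomputable def ei : ℕ ≃ ℕ ⊕ K := Classical.choice nonempty_equiv_of_countable

/-- the enumeration of the points -/
noncomputable def th : ℕ ≃ Om := Classical.choice nonempty_equiv_of_countable

/-- the code of the structure of `x` -/
noncomputable def code (f : (ℕ → ℕ) → (ℕ → Bool) × (ℕ → Bool)) (x : ℕ → Bool) :
    ∀ _ : ℕ, (Fin 2 → ℕ) → Bool :=
  fun i v => decide (Rel f x (ei i) (th (v 0)) (th (v 1)))

theorem code_iff (x : ℕ → Bool) (i p q : ℕ) :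
    code f x i ![p, q] = true ↔ Rel f x (ei i) (th p) (th q) := by
  unfold code
  rw [decide_eq_true_iff]
  rfl

theorem ext_code (x y : ℕ → Bool) : Ext (code f x) (code f y) := by
  intro G β _ a b h c
  obtain ⟨d, hd, hd'⟩ := forth (f := f) x y (G.image ei) (fun p => th (a p)) (fun p => th (b p))
    (fun p q => by
      rw [th.injective.eq_iff, th.injective.eq_iff]
      exact h.1 p q)
    (fun r hr p q => by
      obtain ⟨i, hi, rfl⟩ := Finset.mem_image.1 hr
      rw [← code_iff, ← code_iff]
      exact h.2 i hi p q) (th c)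
  refine ⟨th.symm d, fun p q => ?_, fun i hi p q => ?_⟩
  · have h1 : ∀ p, c = a p ↔ th.symm d = b p := by
      intro p
      rw [← th.injective.eq_iff, hd p, th.symm_apply_eq]
    rcases p with _ | p
    · rcases q with _ | q
      · exact ⟨fun _ => rfl, fun _ => rfl⟩
      · exact h1 q
    · rcases q with _ | q
      · change a p = c ↔ b p = th.symm d
        rw [eq_comm, h1 p, eq_comm]
      · exact h.1 p q
  · have h1 := hd' (ei i) (Finset.mem_image_of_mem _ hi)
    rw [code_iff, code_iff]
    rcases p with _ | p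
    · rcases q with _ | q
      · change Rel f x (ei i) (th c) (th c) ↔ Rel f y (ei i) (th (th.symm d)) (th (th.symm d))
        rw [th.apply_symm_apply]
        exact h1.1
      · change Rel f x (ei i) (th c) (th (a q)) ↔ Rel f y (ei i) (th (th.symm d)) (th (b q))
        rw [th.apply_symm_apply]
        exact (h1.2 q).1
    · rcases q with _ | q
      · change Rel f x (ei i) (th (a p)) (th c) ↔ Rel f y (ei i) (th (b p)) (th (th.symm d))
        rw [th.apply_symm_apply]
        exact (h1.2 p).2
      · change Rel f x (ei i) (th (a p)) (th (a q)) ↔ Rel f y (ei i) (th (b p)) (th (b q))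
        rw [← code_iff, ← code_iff]
        exact h.2 i hi p q

/-- elementary embeddability of the codes is the quasi-order -/
theorem emb_code_iff (hf : Continuous f)
    (htr : ∀ x y z, (x, y) ∈ Set.range f → (y, z) ∈ Set.range f → (x, z) ∈ Set.range f)
    (x y : ℕ → Bool) : Emb (code f x) (code f y) ↔ x = y ∨ (x, y) ∈ Set.range f := by
  constructor
  · intro h
    obtain ⟨e, _, he⟩ := h.exists_map
    have h1 : IsEmb f x y (fun p => th (e (th.symm p))) := by
      intro r p q
      obtain ⟨i, rfl⟩ := ei.surjective r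
      have := he i (th.symm p) (th.symm q)
      rw [code_iff, code_iff, th.apply_symm_apply, th.apply_symm_apply] at this
      exact this
    obtain ⟨z, hz⟩ := h1.branch
    exact Tr.branch hf htr hz
  · intro h
    obtain ⟨z, hz⟩ := Tr.exists_branch h
    obtain ⟨e, he, he'⟩ := exists_isEmb hz
    refine emb_of_map (ext_code x y) (ext_code y x) (fun p => th.symm (e (th p))) ?_ ?_
    · exact th.symm.injective.comp (he.comp th.injective)
    · intro i p q
      rw [code_iff, code_iff, th.apply_symm_apply, th.apply_symm_apply]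
      exact he' _ _ _

/-- rigidity of the codes -/
theorem code_rigid {x y : ℕ → Bool} (π : Equiv.Perm ℕ)
    (h : ∀ i p q, code f x i ![p, q] = true ↔ code f y i ![π p, π q] = true) :
    x = y ∧ ∀ p, π p = p := by
  have h1 : IsEmb f x y ((th.symm.trans π).trans th) := by
    intro r p q
    obtain ⟨i, rfl⟩ := ei.surjective r
    have := h i (th.symm p) (th.symm q)
    rw [code_iff, code_iff, th.apply_symm_apply, th.apply_symm_apply] at this
    exact this
  obtain ⟨h2, h3⟩ := rigid _ h1
  refine ⟨h2, fun p => ?_⟩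
  have h4 := h3 (th p)
  change th (π (th.symm (th p))) = th p at h4
  rw [th.symm_apply_apply] at h4
  exact th.injective h4

end Q202.EE
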