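import Pool.Agent.Q202.EE.Back
import Mathlib.MeasureTheory.Constructions.Polish.Basic

/-!
# Borel coding, and the Borel set of all structures isomorphic to a coding structure
-/

set_option autoImplicit false

namespace Q202.EE

open MeasureTheory Classical

variable (f : (ℕ → ℕ) → (ℕ → Bool) × (ℕ → Bool))

theorem measurableSet_P (s : List ℕ) (j : K) : MeasurableSet {x : ℕ → Bool | P f x s j} := by
  rcases j with u | ik
  · have e : {x : ℕ → Bool | P f x s (Sum.inl u)} =
        (fun (x : ℕ → Bool) (i : Fin s.length) => x i) ⁻¹'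
          {v | ∃ x : ℕ → Bool, (fun i : Fin s.length => x i) = v ∧
            Tr f s.length (ext u) x (lst s)} := by
      ext x
      constructor
      · intro h; exact ⟨x, rfl, h⟩
      · rintro ⟨x', h1, h2⟩
        exact h2.mono le_rfl (fun _ _ => rfl) (fun i hi => congrFun h1 ⟨i, hi⟩) (fun _ _ => le_rfl)
    rw [e]
    refine measurableSet_preimage ?_ (Set.to_countable _).measurableSet
    exact measurable_pi_lambda _ fun i => measurable_pi_apply _
  · exact MeasurableSet.const _

theorem measurableSet_ty (p : Om) (k : K) : MeasurableSet {x : ℕ → Bool | k ∈ ty f x p} := by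
  obtain ⟨s, j, m⟩ := p
  obtain ⟨S, hS⟩ : ∃ S : Set K, ∀ x, P f x s j → ty f x (s, j, m) = S := by
    cases m with
    | zero => exact ⟨{j}ᶜ, fun x hx => ty_sp hx⟩
    | succ m => exact ⟨(en (j, m) : Set K), fun x hx => by simp only [ty, hx, if_true]⟩
  have e : {x : ℕ → Bool | k ∈ ty f x (s, j, m)} =
      ({x | P f x s j} ∩ {_x | k ∈ S}) ∪
      ({x | P f x s j}ᶜ ∩ {_x | k ∈ (en (j, m) : Set K)}) := by
    ext x
    by_cases hP : P f x s j
    · simp only [hS x hP, hP, Set.mem_ofPred_eq, Set.mem_union, Set.mem_inter_iff,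
        Set.mem_compl_iff, not_true_eq_false, false_and, or_false, true_and]
    · simp only [ty, hP, if_false, Set.mem_ofPred_eq, Set.mem_union, Set.mem_inter_iff,
        Set.mem_compl_iff, not_false_eq_true, false_and, false_or, true_and]
  rw [e]
  exact ((measurableSet_P f _ _).inter (MeasurableSet.const _)).union
    ((measurableSet_P f _ _).compl.inter (MeasurableSet.const _))

theorem measurableSet_Rel (r : ℕ ⊕ K) (p q : Om) : MeasurableSet {x : ℕ → Bool | Rel f x r p q} := by
  rcases r with i | k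
  · exact MeasurableSet.const _
  · exact measurableSet_ty f p k

theorem measurable_code (i : ℕ) (v : Fin 2 → ℕ) : Measurable fun x => code f x i v := by
  refine measurable_to_bool ?_
  have e : (fun x => code f x i v) ⁻¹' {true} =
      {x | Rel f x (ei i) (th (v 0)) (th (v 1))} := by
    ext x
    simp only [Set.mem_preimage, Set.mem_singleton_iff, code, decide_eq_true_iff, Set.mem_ofPred_eq]
  rw [e]
  exact measurableSet_Rel f _ _ _

section

variable {X : Type} [MeasurableSpace X] (ι : X → ℕ → Bool)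

/-- pairs of inverse permutations, and points -/
def Z (X : Type) : Set ((ℕ → ℕ) × (ℕ → ℕ) × X) :=
  {p | (∀ n, p.1 (p.2.1 n) = n) ∧ ∀ n, p.2.1 (p.1 n) = n}

theorem measurableSet_Z : MeasurableSet (Z X) := by
  have e : Z X = (⋂ n : ℕ, ⋃ m : ℕ, ({p : (ℕ → ℕ) × (ℕ → ℕ) × X | p.2.1 n = m} ∩ {p | p.1 m = n})) ∩
      (⋂ n : ℕ, ⋃ m : ℕ, ({p : (ℕ → ℕ) × (ℕ → ℕ) × X | p.1 n = m} ∩ {p | p.2.1 m = n})) := by
    ext p
    simp only [Z, Set.mem_ofPred_eq, Set.mem_inter_iff, Set.mem_iInter, Set.mem_iUnion]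
    constructor
    · rintro ⟨h1, h2⟩
      exact ⟨fun n => ⟨_, rfl, h1 n⟩, fun n => ⟨_, rfl, h2 n⟩⟩
    · rintro ⟨h1, h2⟩
      refine ⟨fun n => ?_, fun n => ?_⟩
      · obtain ⟨m, hm, hm'⟩ := h1 n
        rw [hm, hm']
      · obtain ⟨m, hm, hm'⟩ := h2 n
        rw [hm, hm']
  have h1 : ∀ n m : ℕ, MeasurableSet {p : (ℕ → ℕ) × (ℕ → ℕ) × X | p.1 n = m} := fun n m =>
    measurableSet_eq_fun ((measurable_pi_apply n).comp measurable_fst) measurable_const
  have h2 : ∀ n m : ℕ, MeasurableSet {p : (ℕ → ℕ) × (ℕ → ℕ) × X | p.2.1 n = m} := fun n m =>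
    measurableSet_eq_fun ((measurable_pi_apply n).comp (measurable_fst.comp measurable_snd))
      measurable_const
  rw [e]
  exact (MeasurableSet.iInter fun n => MeasurableSet.iUnion fun m => (h2 n m).inter (h1 m n)).inter
    (MeasurableSet.iInter fun n => MeasurableSet.iUnion fun m => (h1 n m).inter (h2 m n))

/-- the copies of the coding structures -/
noncomputable def Phi (p : (ℕ → ℕ) × (ℕ → ℕ) × X) : ∀ _ : ℕ, (Fin 2 → ℕ) → Bool :=
  fun i v => code f (ι p.2.2) i (p.1 ∘ v)

variable {ι}

theorem measurable_Phi (hι : Measurable ι) : Measurable (Phi f ι) := by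
  refine measurable_pi_lambda _ fun i => measurable_pi_lambda _ fun v => ?_
  have h1 : Measurable fun q : X × (Fin 2 → ℕ) => code f (ι q.1) i q.2 :=
    measurable_from_prod_countable_left fun w => (measurable_code f i w).comp hι
  have h2 : Measurable fun p : (ℕ → ℕ) × (ℕ → ℕ) × X => (p.2.2, p.1 ∘ v) := by
    refine Measurable.prodMk (measurable_snd.comp measurable_snd) ?_
    exact measurable_pi_lambda _ fun j => (measurable_pi_apply (v j)).comp measurable_fst
  exact h1.comp h2

omit [MeasurableSpace X] in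
theorem Phi_apply (p : (ℕ → ℕ) × (ℕ → ℕ) × X) (i a b : ℕ) :
    Phi f ι p i ![a, b] = code f (ι p.2.2) i ![p.1 a, p.1 b] := by
  unfold Phi
  congr 1
  funext j
  refine Fin.cases ?_ (fun j => ?_) j
  · rfl
  · rw [Fin.fin_one_eq_zero j]; rfl

theorem Phi_inj (hι : Function.Injective ι) {p q : (ℕ → ℕ) × (ℕ → ℕ) × X} (hp : p ∈ Z X)
    (hq : q ∈ Z X) (h : Phi f ι p = Phi f ι q) : p = q := by
  obtain ⟨g, g', x⟩ := p
  obtain ⟨k, k', y⟩ := q
  have hp1 : ∀ n, g (g' n) = n := hp.1
  have hp2 : ∀ n, g' (g n) = n := hp.2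
  have hq1 : ∀ n, k (k' n) = n := hq.1
  have hq2 : ∀ n, k' (k n) = n := hq.2
  let π : Equiv.Perm ℕ :=
    { toFun := fun n => k (g' n)
      invFun := fun n => g (k' n)
      left_inv := fun n => by
        change g (k' (k (g' n))) = n
        rw [hq2, hp1]
      right_inv := fun n => by
        change k (g' (g (k' n))) = n
        rw [hp2, hq1] }
  have h1 : ∀ i a b, code f (ι x) i ![a, b] = true ↔ code f (ι y) i ![π a, π b] = true := by
    intro i a b
    have h2 : Phi f ι (g, g', x) i ![g' a, g' b] = Phi f ι (k, k', y) i ![g' a, g' b] := by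
      rw [h]
    rw [Phi_apply, Phi_apply] at h2
    change code f (ι x) i ![g (g' a), g (g' b)] = code f (ι y) i ![k (g' a), k (g' b)] at h2
    have h3 : ∀ n, g (g' n) = n := hp.1
    rw [h3, h3] at h2
    rw [h2]
    rfl
  obtain ⟨h2, h3⟩ := code_rigid π h1
  have h3' : ∀ n, k (g' n) = n := h3
  have e1 : x = y := hι h2
  have e2 : g = k := by
    funext n
    have h4 := h3' (g n)
    have h5 : g' (g n) = n := hp.2 n
    rw [h5] at h4
    exact h4.symm
  have e3 : g' = k' := by
    funext n
    have h4 : k' (k (g' n)) = g' n := hq.2 (g' n)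
    rw [h3'] at h4
    exact h4.symm
  rw [e1, e2, e3]

/-- the measurable embedding onto the invariant Borel set -/
theorem measurableEmbedding_Phi [StandardBorelSpace X] (hm : Measurable ι)
    (hι : Function.Injective ι) :
    MeasurableEmbedding (fun p : Z X => Phi f ι p.1) := by
  have : StandardBorelSpace (Z X) := measurableSet_Z.standardBorel
  refine Measurable.measurableEmbedding ((measurable_Phi f hm).comp measurable_subtype_coe) ?_
  intro p q h
  exact Subtype.ext (Phi_inj f hι p.2 q.2 h)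

/-- elementary embeddability of the copies -/
theorem emb_Phi_iff (p q : Z X) : Emb (Phi f ι p.1) (Phi f ι q.1) ↔
    Emb (code f (ι p.1.2.2)) (code f (ι q.1.2.2)) := by
  have key : ∀ p : Z X, Emb (Phi f ι p.1) (code f (ι p.1.2.2)) ∧
      Emb (code f (ι p.1.2.2)) (Phi f ι p.1) := by
    intro p
    let π : Equiv.Perm ℕ := ⟨p.1.1, p.1.2.1, p.2.2, p.2.1⟩
    refine ⟨emb_of_perm π fun i a b => ?_, emb_of_perm π.symm fun i a b => ?_⟩
    · rw [Phi_apply]; rfl
    · rw [Phi_apply]
      have h1 : ∀ n, p.1.1 (π.symm n) = n := π.apply_symm_apply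
      rw [h1, h1]
  constructor
  · intro h
    exact ((key p).2.trans h).trans (key q).1
  · intro h
    exact ((key p).1.trans h).trans (key q).2

end

end Q202.EE
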