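import Mathlib.Topology.MetricSpace.PiNat
import Mathlib.Topology.Compactness.Compact
import Mathlib.Topology.Order.Basic

/-!
# A normal form for analytic quasi-orders on the Cantor space

Following Louveau and Rosendal: a transitive analytic relation on `2^ω` (with the diagonal added)
is the set of the branches of a tree `T` on `2 × 2 × ω` which is monotone in the last coordinate,
reflexive, and subadditive. Here in addition `T n x y 0` forces `x` and `y` to agree below `n`.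
The tree is given by the relations `T n x y z`, which depend on `x`, `y`, `z` below `n` only.
-/

set_option autoImplicit false

namespace Q202.EE

/-- one step of a chain -/
def T1 (f : (ℕ → ℕ) → (ℕ → Bool) × (ℕ → Bool)) (n : ℕ) (x y : ℕ → Bool) (z : ℕ → ℕ) : Prop :=
  (1 ≤ n → 1 ≤ z 0) ∧ ∃ w : ℕ → ℕ, (∀ i < n, w i ≤ z i) ∧ (∀ i < n, (f w).1 i = x i) ∧
    ∀ i < n, (f w).2 i = y i

/-- a chain with `k` steps -/
def Ch (f : (ℕ → ℕ) → (ℕ → Bool) × (ℕ → Bool)) : ℕ → ℕ → (ℕ → Bool) → (ℕ → Bool) →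
    (ℕ → ℕ) → Prop
  | 0, n, x, y, _ => ∀ i < n, x i = y i
  | k + 1, n, x, y, z => ∃ (v : ℕ → Bool) (s t : ℕ → ℕ), (∀ i < n, s i + t i ≤ z i) ∧
      Ch f k n x v s ∧ T1 f n v y t

/-- the tree -/
def Tr (f : (ℕ → ℕ) → (ℕ → Bool) × (ℕ → Bool)) (n : ℕ) (x y : ℕ → Bool) (z : ℕ → ℕ) : Prop :=
  ∃ k, Ch f k n x y z

variable {f : (ℕ → ℕ) → (ℕ → Bool) × (ℕ → Bool)}

theorem T1.mono {m n : ℕ} (hmn : m ≤ n) {x x' y y' : ℕ → Bool} {z z' : ℕ → ℕ}
    (hx : ∀ i < m, x i = x' i) (hy : ∀ i < m, y i = y' i) (hz : ∀ i < m, z i ≤ z' i)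
    (h : T1 f n x y z) : T1 f m x' y' z' := by
  obtain ⟨h0, w, hw, hw1, hw2⟩ := h
  refine ⟨fun hm => (h0 (by omega)).trans (hz 0 (by omega)), w, fun i hi => ?_, fun i hi => ?_,
    fun i hi => ?_⟩
  · exact (hw i (by omega)).trans (hz i hi)
  · rw [hw1 i (by omega), hx i hi]
  · rw [hw2 i (by omega), hy i hi]

theorem Ch.mono : ∀ (k : ℕ) {m n : ℕ} (_ : m ≤ n) {x x' y y' : ℕ → Bool} {z z' : ℕ → ℕ}
    (_ : ∀ i < m, x i = x' i) (_ : ∀ i < m, y i = y' i) (_ : ∀ i < m, z i ≤ z' i)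
    (_ : Ch f k n x y z), Ch f k m x' y' z'
  | 0, m, n, hmn, x, x', y, y', z, z', hx, hy, _, h => by
    intro i hi
    rw [← hx i hi, ← hy i hi]
    exact h i (by omega)
  | k + 1, m, n, hmn, x, x', y, y', z, z', hx, hy, hz, h => by
    obtain ⟨v, s, t, hst, h1, h2⟩ := h
    refine ⟨v, s, t, fun i hi => (hst i (by omega)).trans (hz i hi), ?_, ?_⟩
    · exact Ch.mono k hmn hx (fun _ _ => rfl) (fun _ _ => le_rfl) h1
    · exact h2.mono hmn (fun _ _ => rfl) hy (fun _ _ => le_rfl)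

theorem Tr.mono {m n : ℕ} (hmn : m ≤ n) {x x' y y' : ℕ → Bool} {z z' : ℕ → ℕ}
    (hx : ∀ i < m, x i = x' i) (hy : ∀ i < m, y i = y' i) (hz : ∀ i < m, z i ≤ z' i)
    (h : Tr f n x y z) : Tr f m x' y' z' := by
  obtain ⟨k, hk⟩ := h
  exact ⟨k, Ch.mono k hmn hx hy hz hk⟩

theorem Tr.refl (n : ℕ) (x : ℕ → Bool) (z : ℕ → ℕ) : Tr f n x x z := ⟨0, fun _ _ => rfl⟩

theorem Tr.add {n : ℕ} {x y w : ℕ → Bool} {z z' : ℕ → ℕ} (h : Tr f n x y z)
    (h' : Tr f n y w z') : Tr f n x w (fun i => z i + z' i) := by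
  obtain ⟨k', hk'⟩ := h'
  induction k' generalizing w z' with
  | zero => exact h.mono le_rfl (fun _ _ => rfl) hk' (fun i _ => Nat.le_add_right _ _)
  | succ k' ih =>
    obtain ⟨v, s, t, hst, h1, h2⟩ := hk'
    obtain ⟨k, hk⟩ := ih h1
    refine ⟨k + 1, v, fun i => z i + s i, t, fun i hi => ?_, hk, h2⟩
    have := hst i hi
    change z i + s i + t i ≤ z i + z' i
    omega

theorem Ch.bound : ∀ (k : ℕ) {n : ℕ} (_ : 1 ≤ n) {x y : ℕ → Bool} {z : ℕ → ℕ}
    (_ : Ch f k n x y z), k ≤ z 0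
  | 0, _, _, _, _, _, _ => Nat.zero_le _
  | k + 1, n, hn, x, y, z, h => by
    obtain ⟨v, s, t, hst, h1, h2⟩ := h
    have := hst 0 (by omega)
    have := Ch.bound k hn h1
    have := h2.1 hn
    omega

theorem Tr.inj {n : ℕ} (hn : 1 ≤ n) {x y : ℕ → Bool} (h : Tr f n x y 0) :
    ∀ i < n, x i = y i := by
  obtain ⟨k, hk⟩ := h
  have h1 : k ≤ 0 := Ch.bound k hn hk
  obtain rfl : k = 0 := by omega
  exact hk

/-! ### Branches -/

theorem isCompact_box (t : ℕ → ℕ) : IsCompact (Set.pi Set.univ fun i => Set.Iic (t i)) :=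
  isCompact_univ_pi fun i => (Set.finite_Iic (t i)).isCompact

theorem T1.branch (hf : Continuous f) {x y : ℕ → Bool} {z : ℕ → ℕ} (h : ∀ n, T1 f n x y z) :
    (x, y) ∈ Set.range f := by
  let K : ℕ → Set (ℕ → ℕ) := fun n =>
    Set.ofPred fun w => (∀ i, w i ≤ z i) ∧
      ∃ w' : ℕ → ℕ, (∀ i < n, w' i = w i) ∧ (∀ i < n, (f w').1 i = x i) ∧
        ∀ i < n, (f w').2 i = y i
  have hK1 : ∀ n, K (n + 1) ⊆ K n := by
    rintro n w ⟨h1, w', h2, h3, h4⟩
    exact ⟨h1, w', fun i hi => h2 i (by omega), fun i hi => h3 i (by omega),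
      fun i hi => h4 i (by omega)⟩
  have hK2 : ∀ n, (K n).Nonempty := by
    intro n
    obtain ⟨_, w, hw, hw1, hw2⟩ := h n
    refine ⟨fun i => if i < n then w i else 0, fun i => ?_, w, fun i hi => ?_, hw1, hw2⟩
    · by_cases hi : i < n
      · simp only [hi, if_true]; exact hw i hi
      · simp only [hi, if_false]; exact Nat.zero_le _
    · simp only [hi, if_true]
  have hK4 : ∀ n, IsClosed (K n) := by
    intro n
    have e : K n = Set.pi Set.univ (fun i => Set.Iic (z i)) ∩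
        (fun (w : ℕ → ℕ) (i : Fin n) => w i) ⁻¹' (Set.ofPred fun v : Fin n → ℕ =>
          ∃ w' : ℕ → ℕ, (∀ i : Fin n, w' i = v i) ∧ (∀ i < n, (f w').1 i = x i) ∧
        ∀ i < n, (f w').2 i = y i) := by
      ext w
      constructor
      · rintro ⟨h1, w', h2, h3⟩
        exact ⟨fun i _ => h1 i, w', fun i => h2 i i.2, h3⟩
      · rintro ⟨h1, w', h2, h3⟩
        exact ⟨fun i => h1 i trivial, w', fun i hi => h2 ⟨i, hi⟩, h3⟩
    rw [e]
    refine (isCompact_box z).isClosed.inter ?_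
    exact (isClosed_discrete _).preimage (by fun_prop)
  have hK3 : IsCompact (K 0) :=
    (isCompact_box z).of_isClosed_subset (hK4 0) (fun w hw i _ => hw.1 i)
  obtain ⟨w, hw⟩ := IsCompact.nonempty_iInter_of_sequence_nonempty_isCompact_isClosed K hK1 hK2
    hK3 hK4
  rw [Set.mem_iInter] at hw
  refine ⟨w, ?_⟩
  choose w' hw' using fun n => (hw n).2
  have hlim : Filter.Tendsto w' Filter.atTop (nhds w) := by
    rw [tendsto_pi_nhds]
    intro i
    refine tendsto_const_nhds.congr' ?_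
    filter_upwards [Filter.eventually_gt_atTop i] with n hn
    exact ((hw' n).1 i hn).symm
  have hlim2 : Filter.Tendsto (fun n => f (w' n)) Filter.atTop (nhds (f w)) :=
    (hf.tendsto w).comp hlim
  have h1 : Filter.Tendsto (fun n => f (w' n)) Filter.atTop (nhds (x, y)) := by
    rw [nhds_prod_eq]
    refine Filter.Tendsto.prodMk (f := Filter.atTop) (m₁ := fun n => (f (w' n)).1)
      (m₂ := fun n => (f (w' n)).2) ?_ ?_
    · rw [tendsto_pi_nhds]
      intro i
      refine tendsto_const_nhds.congr' ?_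
      filter_upwards [Filter.eventually_gt_atTop i] with n hn
      exact ((hw' n).2.1 i hn).symm
    · rw [tendsto_pi_nhds]
      intro i
      refine tendsto_const_nhds.congr' ?_
      filter_upwards [Filter.eventually_gt_atTop i] with n hn
      exact ((hw' n).2.2 i hn).symm
  exact tendsto_nhds_unique hlim2 h1

theorem Ch.branch (hf : Continuous f)
    (htr : ∀ x y z, (x, y) ∈ Set.range f → (y, z) ∈ Set.range f → (x, z) ∈ Set.range f) :
    ∀ (k : ℕ) {x y : ℕ → Bool} {z : ℕ → ℕ} (_ : ∀ n, Ch f k n x y z),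
      x = y ∨ (x, y) ∈ Set.range f
  | 0, x, y, z, h => Or.inl (funext fun i => h (i + 1) i (by omega))
  | k + 1, x, y, z, h => by
    let K : ℕ → Set ((ℕ → Bool) × (ℕ → ℕ) × (ℕ → ℕ)) := fun n =>
      Set.ofPred fun p => (∀ i, p.2.1 i ≤ z i) ∧ (∀ i, p.2.2 i ≤ z i) ∧
        (∀ i < n, p.2.1 i + p.2.2 i ≤ z i) ∧ Ch f k n x p.1 p.2.1 ∧ T1 f n p.1 y p.2.2
    have hK1 : ∀ n, K (n + 1) ⊆ K n := by
      rintro n p ⟨h1, h2, h3, h4, h5⟩
      exact ⟨h1, h2, fun i hi => h3 i (by omega),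
        Ch.mono k (Nat.le_succ n) (fun _ _ => rfl) (fun _ _ => rfl) (fun _ _ => le_rfl) h4,
        h5.mono (Nat.le_succ n) (fun _ _ => rfl) (fun _ _ => rfl) (fun _ _ => le_rfl)⟩
    have hK2 : ∀ n, (K n).Nonempty := by
      intro n
      obtain ⟨v, s, t, hst, h1, h2⟩ := h n
      refine ⟨(v, fun i => if i < n then s i else 0, fun i => if i < n then t i else 0),
        fun i => ?_, fun i => ?_, fun i hi => ?_, ?_, ?_⟩
      · by_cases hi : i < n
        · simp only [hi, if_true]; have := hst i hi; omega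
        · simp only [hi, if_false]; exact Nat.zero_le _
      · by_cases hi : i < n
        · simp only [hi, if_true]; have := hst i hi; omega
        · simp only [hi, if_false]; exact Nat.zero_le _
      · simp only [hi, if_true]; exact hst i hi
      · refine Ch.mono k le_rfl (fun _ _ => rfl) (fun _ _ => rfl) (fun i hi => ?_) h1
        simp only [hi, if_true]; exact le_rfl
      · refine h2.mono le_rfl (fun _ _ => rfl) (fun _ _ => rfl) (fun i hi => ?_)
        simp only [hi, if_true]; exact le_rfl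
    let box : Set ((ℕ → Bool) × (ℕ → ℕ) × (ℕ → ℕ)) :=
      Set.univ ×ˢ (Set.pi Set.univ (fun i => Set.Iic (z i)) ×ˢ
        Set.pi Set.univ (fun i => Set.Iic (z i)))
    have hbox : IsCompact box := isCompact_univ.prod ((isCompact_box z).prod (isCompact_box z))
    have hK4 : ∀ n, IsClosed (K n) := by
      intro n
      have e : K n = box ∩
          (fun (p : (ℕ → Bool) × (ℕ → ℕ) × (ℕ → ℕ)) =>
            ((fun i : Fin n => p.1 i), (fun i : Fin n => p.2.1 i), (fun i : Fin n => p.2.2 i))) ⁻¹'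
          (Set.ofPred fun q : (Fin n → Bool) × (Fin n → ℕ) × (Fin n → ℕ) =>
            ∃ p : (ℕ → Bool) × (ℕ → ℕ) × (ℕ → ℕ), ((fun i : Fin n => p.1 i),
              (fun i : Fin n => p.2.1 i), (fun i : Fin n => p.2.2 i)) = q ∧
              (∀ i < n, p.2.1 i + p.2.2 i ≤ z i) ∧ Ch f k n x p.1 p.2.1 ∧ T1 f n p.1 y p.2.2) := by
        ext p
        constructor
        · rintro ⟨h1, h2, h3, h4, h5⟩
          exact ⟨⟨trivial, fun i _ => h1 i, fun i _ => h2 i⟩, p, rfl, h3, h4, h5⟩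
        · rintro ⟨⟨_, h1, h2⟩, p', h3, h4, h5, h6⟩
          simp only [Prod.mk.injEq] at h3
          obtain ⟨e1, e2, e3⟩ := h3
          have e1' : ∀ i < n, p'.1 i = p.1 i := fun i hi => congrFun e1 ⟨i, hi⟩
          have e2' : ∀ i < n, p'.2.1 i = p.2.1 i := fun i hi => congrFun e2 ⟨i, hi⟩
          have e3' : ∀ i < n, p'.2.2 i = p.2.2 i := fun i hi => congrFun e3 ⟨i, hi⟩
          refine ⟨fun i => h1 i trivial, fun i => h2 i trivial, fun i hi => ?_, ?_, ?_⟩
          · rw [← e2' i hi, ← e3' i hi]; exact h4 i hi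
          · exact Ch.mono k le_rfl (fun _ _ => rfl) e1' (fun i hi => (e2' i hi).le) h5
          · exact h6.mono le_rfl e1' (fun _ _ => rfl) (fun i hi => (e3' i hi).le)
      rw [e]
      refine hbox.isClosed.inter ?_
      exact (isClosed_discrete _).preimage (by fun_prop)
    have hK3 : IsCompact (K 0) :=
      hbox.of_isClosed_subset (hK4 0) (fun p hp => ⟨trivial, fun i _ => hp.1 i,
        fun i _ => hp.2.1 i⟩)
    obtain ⟨p, hp⟩ := IsCompact.nonempty_iInter_of_sequence_nonempty_isCompact_isClosed K hK1 hK2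
      hK3 hK4
    rw [Set.mem_iInter] at hp
    have h1 := Ch.branch hf htr k (fun n => (hp n).2.2.2.1)
    have h2 := T1.branch hf (fun n => (hp n).2.2.2.2)
    rcases h1 with h1 | h1
    · rw [← h1] at h2
      exact Or.inr h2
    · exact Or.inr (htr _ _ _ h1 h2)

theorem Tr.branch (hf : Continuous f)
    (htr : ∀ x y z, (x, y) ∈ Set.range f → (y, z) ∈ Set.range f → (x, z) ∈ Set.range f)
    {x y : ℕ → Bool} {z : ℕ → ℕ} (h : ∀ n, Tr f n x y z) : x = y ∨ (x, y) ∈ Set.range f := by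
  choose k hk using h
  -- the lengths of the chains are bounded
  have hb : ∀ n, k (n + 1) ∈ Set.Iic (z 0) := fun n => Ch.bound _ (by omega) (hk (n + 1))
  obtain ⟨c, hc⟩ : ∃ c, ∀ m, ∃ n, m ≤ n ∧ k (n + 1) = c := by
    by_contra hcon
    push Not at hcon
    choose m hm using hcon
    let M := (Finset.range (z 0 + 1)).sup m
    have h1 : k (M + 1) ∈ Set.Iic (z 0) := hb M
    have h2 : m (k (M + 1)) ≤ M :=
      Finset.le_sup (f := m) (Finset.mem_range.2 (Nat.lt_succ_of_le h1))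
    exact hm _ M h2 rfl
  refine Ch.branch (z := z) hf htr c fun m => ?_
  obtain ⟨n, hmn, hn⟩ := hc m
  have := hk (n + 1)
  rw [hn] at this
  exact Ch.mono c (by omega) (fun _ _ => rfl) (fun _ _ => rfl) (fun _ _ => le_rfl) this

theorem Tr.exists_branch {x y : ℕ → Bool} (h : x = y ∨ (x, y) ∈ Set.range f) :
    ∃ z : ℕ → ℕ, ∀ n, Tr f n x y z := by
  rcases h with rfl | ⟨w, hw⟩
  · exact ⟨0, fun n => Tr.refl n x 0⟩
  · refine ⟨fun i => w i + 1, fun n => ⟨1, x, 0, fun i => w i + 1, fun i _ => by simp,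
      fun _ _ => rfl, fun _ => by simp, w, fun i _ => by simp, fun i _ => by rw [hw],
      fun i _ => by rw [hw]⟩⟩

end Q202.EE
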