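import Pool.Agent.Q202.EE.LR
import Pool.Agent.Q202.EE.BF
import Mathlib.Logic.Denumerable
import Mathlib.Logic.Equiv.Finset
import Mathlib.Data.Set.Finite.Basic
import Mathlib.SetTheory.Cardinal.Finite

/-!
# The structures which code the points of the Cantor space
-/

set_option autoImplicit false

namespace Q202.EE

open Classical

/-- colours -/
abbrev K : Type := List Bool ⊕ (ℕ × ℕ)

/-- points: a node (finite sequence) and an index in the fibre over the node -/
abbrev Om : Type := List ℕ × (K × ℕ)

/-- an enumeration of the finite sets of colours -/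
noncomputable def en : K × ℕ ≃ Finset K := Classical.choice nonempty_equiv_of_countable

/-- the infinite sequence which extends the finite sequence `u` -/
def ext (u : List Bool) : ℕ → Bool := fun i => u.getD i false

/-- the infinite sequence which extends the finite sequence `s` -/
def lst (s : List ℕ) : ℕ → ℕ := fun i => s.getD i 0

variable (f : (ℕ → ℕ) → (ℕ → Bool) × (ℕ → Bool))

/-- the special colours which are present in the fibre over `s` -/
def P (x : ℕ → Bool) (s : List ℕ) : K → Prop
  | Sum.inl u => Tr f s.length (ext u) x (lst s)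
  | Sum.inr ik => ik.1 < s.length ∧ ik.2 ≤ lst s ik.1

/-- the set of the colours of a point -/
noncomputable def ty (x : ℕ → Bool) (p : Om) : Set K :=
  if P f x p.1 p.2.1 then
    match p.2.2 with
    | 0 => {p.2.1}ᶜ
    | m + 1 => (en (p.2.1, m) : Set K)
  else (en p.2 : Set K)

/-- the relations: equality of the `i`-th coordinates, and the colours -/
def Rel (x : ℕ → Bool) : ℕ ⊕ K → Om → Om → Prop
  | Sum.inl i, p, q => i < p.1.length ∧ i < q.1.length ∧ lst p.1 i = lst q.1 i
  | Sum.inr k, p, _ => k ∈ ty f x p

variable {f}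

theorem cofinite_ne (j : K) (F : Finset K) : ({j}ᶜ : Set K) ≠ (F : Set K) := by
  intro h
  have h1 : (Set.univ : Set K).Finite := by
    have : (Set.univ : Set K) = {j} ∪ {j}ᶜ := by simp
    rw [this, h]
    exact (Set.finite_singleton j).union F.finite_toSet
  exact Set.infinite_univ h1

theorem ty_fin (x : ℕ → Bool) (s : List ℕ) (F : Finset K) : ∃ c, ty f x (s, c) = (F : Set K) := by
  obtain ⟨⟨j, m⟩, h⟩ := en.surjective F
  by_cases hP : P f x s j
  · exact ⟨(j, m + 1), by simp only [ty, hP, if_true, h]⟩
  · exact ⟨(j, m), by simp only [ty, hP, if_false, h]⟩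

theorem ty_sp {x : ℕ → Bool} {s : List ℕ} {j : K} (h : P f x s j) :
    ty f x (s, (j, 0)) = {j}ᶜ := by
  simp only [ty, h, if_true]

theorem ty_cases (x : ℕ → Bool) (p : Om) : (∃ F : Finset K, ty f x p = (F : Set K)) ∨
    ∃ j, P f x p.1 j ∧ ty f x p = {j}ᶜ := by
  obtain ⟨s, j, m⟩ := p
  by_cases hP : P f x s j
  · cases m with
    | zero => exact Or.inr ⟨j, hP, ty_sp hP⟩
    | succ m => exact Or.inl ⟨en (j, m), by simp only [ty, hP, if_true]⟩
  · exact Or.inl ⟨en (j, m), by simp only [ty, hP, if_false]⟩

theorem ty_eq_compl {x : ℕ → Bool} {p : Om} {j : K} (h : ty f x p = {j}ᶜ) : P f x p.1 j := by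
  rcases ty_cases (f := f) x p with ⟨F, hF⟩ | ⟨j', hP, hj'⟩
  · rw [h] at hF
    exact absurd hF (cofinite_ne j F)
  · rw [h] at hj'
    have : j = j' := by
      have h1 := compl_injective hj'
      exact Set.singleton_injective h1
    rw [this]
    exact hP

theorem ty_inj (x : ℕ → Bool) (s : List ℕ) {c c' : K × ℕ}
    (h : ty f x (s, c) = ty f x (s, c')) : c = c' := by
  obtain ⟨j, m⟩ := c
  obtain ⟨j', m'⟩ := c'
  have hinj : ∀ a b : K × ℕ, (en a : Set K) = (en b : Set K) → a = b := fun a b hab =>
    en.injective (Finset.coe_injective hab)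
  by_cases hP : P f x s j
  · by_cases hP' : P f x s j'
    · rcases m with _ | m
      · rcases m' with _ | m'
        · simp only [ty, hP, hP', if_true] at h
          have h1 := Set.singleton_injective (compl_injective h)
          rw [h1]
        · simp only [ty, hP, hP', if_true] at h
          exact absurd h (cofinite_ne _ _)
      · rcases m' with _ | m'
        · simp only [ty, hP, hP', if_true] at h
          exact absurd h.symm (cofinite_ne _ _)
        · simp only [ty, hP, hP', if_true] at h
          have h1 := hinj _ _ h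
          simp only [Prod.mk.injEq] at h1
          rw [h1.1, h1.2]
    · rcases m with _ | m
      · simp only [ty, hP, hP', if_true, if_false] at h
        exact absurd h (cofinite_ne _ _)
      · simp only [ty, hP, hP', if_true, if_false] at h
        have h1 := hinj _ _ h
        simp only [Prod.mk.injEq] at h1
        rw [h1.1] at hP
        exact absurd hP hP'
  · by_cases hP' : P f x s j'
    · rcases m' with _ | m'
      · simp only [ty, hP, hP', if_true, if_false] at h
        exact absurd h.symm (cofinite_ne _ _)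
      · simp only [ty, hP, hP', if_true, if_false] at h
        have h1 := hinj _ _ h
        simp only [Prod.mk.injEq] at h1
        rw [h1.1] at hP
        exact absurd hP' hP
    · simp only [ty, hP, hP', if_false] at h
      exact hinj _ _ h

theorem lst_ext {s t : List ℕ} (hl : s.length = t.length) (h : ∀ i < s.length, lst s i = lst t i) :
    s = t := by
  refine List.ext_getElem hl fun i h1 h2 => ?_
  have := h i h1
  unfold lst at this
  rw [List.getD_eq_getElem _ _ h1, List.getD_eq_getElem _ _ h2] at this
  exact this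

/-! ### Maps which respect the relations -/

/-- `e` respects all relations -/
def IsEmb (f : (ℕ → ℕ) → (ℕ → Bool) × (ℕ → Bool)) (x y : ℕ → Bool) (e : Om → Om) : Prop :=
  ∀ r p q, Rel f x r p q ↔ Rel f y r (e p) (e q)

theorem IsEmb.length {x y : ℕ → Bool} {e : Om → Om} (h : IsEmb f x y e) (p : Om) :
    (e p).1.length = p.1.length := by
  have h1 : ∀ i, i < p.1.length ↔ i < (e p).1.length := by
    intro i
    have := h (Sum.inl i) p p
    constructor
    · intro hi
      exact (this.1 ⟨hi, hi, rfl⟩).1
    · intro hi
      exact (this.2 ⟨hi, hi, rfl⟩).1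
  apply le_antisymm
  · by_contra hcon
    push Not at hcon
    exact lt_irrefl _ ((h1 _).2 hcon)
  · by_contra hcon
    push Not at hcon
    exact lt_irrefl _ ((h1 _).1 hcon)

theorem IsEmb.coord {x y : ℕ → Bool} {e : Om → Om} (h : IsEmb f x y e) {p q : Om} {i : ℕ}
    (hp : i < p.1.length) (hq : i < q.1.length) (hpq : lst p.1 i = lst q.1 i) :
    lst (e p).1 i = lst (e q).1 i :=
  ((h (Sum.inl i) p q).1 ⟨hp, hq, hpq⟩).2.2

theorem IsEmb.fib {x y : ℕ → Bool} {e : Om → Om} (h : IsEmb f x y e) {p q : Om}
    (hpq : p.1 = q.1) : (e p).1 = (e q).1 := by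
  refine lst_ext ?_ ?_
  · rw [h.length, h.length, hpq]
  · intro i hi
    rw [h.length] at hi
    exact h.coord hi (by rw [← hpq]; exact hi) (by rw [hpq])

theorem IsEmb.ty_eq {x y : ℕ → Bool} {e : Om → Om} (h : IsEmb f x y e) (p : Om) :
    ty f y (e p) = ty f x p := by
  ext k
  exact (h (Sum.inr k) p p).symm

theorem IsEmb.pres {x y : ℕ → Bool} {e : Om → Om} (h : IsEmb f x y e) {p : Om} {j : K}
    (hj : P f x p.1 j) : P f y (e p).1 j := by
  have h1 := ty_sp hj
  rw [← h.ty_eq] at h1
  have h2 := ty_eq_compl h1
  rw [h.fib (p := (p.1, (j, 0))) (q := p) rfl] at h2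
  exact h2

/-- the initial segment of `x` of length `n` -/
def ini (x : ℕ → Bool) (n : ℕ) : List Bool := List.ofFn fun i : Fin n => x i

theorem ext_ini (x : ℕ → Bool) (n : ℕ) : ∀ i < n, ext (ini x n) i = x i := by
  intro i hi
  unfold ext ini
  rw [List.getD_eq_getElem _ _ (by rw [List.length_ofFn]; exact hi), List.getElem_ofFn]

theorem lst_replicate (n : ℕ) : lst (List.replicate n 0) = 0 := by
  funext i
  unfold lst
  by_cases hi : i < n
  · rw [List.getD_eq_getElem _ _ (by rw [List.length_replicate]; exact hi),
      List.getElem_replicate]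
    rfl
  · rw [List.getD_eq_default _ _ (by rw [List.length_replicate]; omega)]
    rfl

theorem P_ini (x : ℕ → Bool) (n : ℕ) : P f x (List.replicate n 0) (Sum.inl (ini x n)) := by
  change Tr f (List.replicate n 0).length (ext (ini x n)) x (lst (List.replicate n 0))
  rw [List.length_replicate]
  exact (Tr.refl n x _).mono le_rfl (fun i hi => (ext_ini x n i hi).symm) (fun _ _ => rfl)
    (fun _ _ => le_rfl)

/-- a map which respects the relations gives a branch -/
theorem IsEmb.branch {x y : ℕ → Bool} {e : Om → Om} (h : IsEmb f x y e) :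
    ∃ z : ℕ → ℕ, ∀ n, Tr f n x y z := by
  let p : ℕ → Om := fun n => (List.replicate n 0, (Sum.inl [], 0))
  have hlen : ∀ n, (p n).1.length = n := fun n => List.length_replicate
  refine ⟨fun i => lst (e (p (i + 1))).1 i, fun n => ?_⟩
  have h1 : P f y (e (p n)).1 (Sum.inl (ini x n)) := h.pres (P_ini x n)
  change Tr f (e (p n)).1.length (ext (ini x n)) y (lst (e (p n)).1) at h1
  rw [h.length, hlen] at h1
  refine h1.mono le_rfl (ext_ini x n) (fun _ _ => rfl) (fun i hi => le_of_eq ?_)
  refine h.coord (by rw [hlen]; exact hi) (by rw [hlen]; omega) ?_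
  change lst (List.replicate n 0) i = lst (List.replicate (i + 1) 0) i
  rw [lst_replicate, lst_replicate]

/-- addition of `z` to a node -/
def addz (z : ℕ → ℕ) (s : List ℕ) : List ℕ := List.ofFn fun i : Fin s.length => lst s i + z i

theorem addz_length (z : ℕ → ℕ) (s : List ℕ) : (addz z s).length = s.length :=
  List.length_ofFn

theorem lst_addz (z : ℕ → ℕ) (s : List ℕ) : ∀ i < s.length, lst (addz z s) i = lst s i + z i := by
  intro i hi
  unfold lst addz
  rw [List.getD_eq_getElem _ _ (by rw [List.length_ofFn]; exact hi), List.getElem_ofFn]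
  rfl

theorem addz_inj (z : ℕ → ℕ) {s t : List ℕ} (h : addz z s = addz z t) : s = t := by
  have hl : s.length = t.length := by rw [← addz_length z s, h, addz_length]
  refine lst_ext hl fun i hi => ?_
  have h1 := lst_addz z s i hi
  have h2 := lst_addz z t i (hl ▸ hi)
  rw [h, h2] at h1
  omega

/-- the special colours present over `s` are present over `s + z` -/
theorem P_add {x y : ℕ → Bool} {z : ℕ → ℕ} (hz : ∀ n, Tr f n x y z) {s : List ℕ} {j : K}
    (h : P f x s j) : P f y (addz z s) j := by
  rcases j with u | ⟨i, k⟩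
  · change Tr f s.length (ext u) x (lst s) at h
    change Tr f (addz z s).length (ext u) y (lst (addz z s))
    rw [addz_length]
    exact (h.add (hz s.length)).mono le_rfl (fun _ _ => rfl) (fun _ _ => rfl)
      (fun i hi => (lst_addz z s i hi).ge)
  · change i < s.length ∧ k ≤ lst s i at h
    change i < (addz z s).length ∧ k ≤ lst (addz z s) i
    rw [addz_length, lst_addz z s i h.1]
    exact ⟨h.1, h.2.trans (Nat.le_add_right _ _)⟩

/-- a branch gives an injective map which respects the relations -/
theorem exists_isEmb {x y : ℕ → Bool} {z : ℕ → ℕ} (hz : ∀ n, Tr f n x y z) :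
    ∃ e : Om → Om, Function.Injective e ∧ IsEmb f x y e := by
  have key : ∀ p : Om, ∃ c, ty f y (addz z p.1, c) = ty f x p := by
    intro p
    rcases ty_cases (f := f) x p with ⟨F, hF⟩ | ⟨j, hP, hj⟩
    · rw [hF]
      exact ty_fin y _ F
    · rw [hj]
      exact ⟨(j, 0), ty_sp (P_add hz hP)⟩
  choose c hc using key
  refine ⟨fun p => (addz z p.1, c p), ?_, ?_⟩
  · rintro ⟨s, a⟩ ⟨t, b⟩ hpq
    simp only [Prod.mk.injEq] at hpq
    obtain rfl : s = t := addz_inj z hpq.1
    have h1 := hc (s, a)
    have h2 := hc (s, b)
    rw [hpq.2, h2] at h1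
    rw [ty_inj x s h1]
  · intro r p q
    rcases r with i | k
    · change (i < p.1.length ∧ i < q.1.length ∧ lst p.1 i = lst q.1 i) ↔
        (i < (addz z p.1).length ∧ i < (addz z q.1).length ∧
          lst (addz z p.1) i = lst (addz z q.1) i)
      rw [addz_length, addz_length]
      refine and_congr_right fun h1 => and_congr_right fun h2 => ?_
      rw [lst_addz z _ i h1, lst_addz z _ i h2]
      omega
    · change k ∈ ty f x p ↔ k ∈ ty f y (addz z p.1, c p)
      rw [hc]

/-- an isomorphism between the structures of `x` and `y` is the identity, and `x = y` -/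
theorem rigid {x y : ℕ → Bool} (π : Om ≃ Om) (h : IsEmb f x y π) : x = y ∧ ∀ p, π p = p := by
  have h' : IsEmb f y x π.symm := by
    intro r p q
    rw [h r (π.symm p) (π.symm q), π.apply_symm_apply, π.apply_symm_apply]
  have hle : ∀ (x y : ℕ → Bool) (e : Om → Om), IsEmb f x y e → ∀ (p : Om) (i : ℕ),
      i < p.1.length → lst p.1 i ≤ lst (e p).1 i := by
    intro x y e he p i hi
    have h1 : P f x p.1 (Sum.inr (i, lst p.1 i)) := ⟨hi, le_rfl⟩
    exact (he.pres h1).2
  have hnode : ∀ p, (π p).1 = p.1 := by
    intro p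
    refine lst_ext (h.length p) fun i hi => ?_
    apply le_antisymm
    · have := hle y x π.symm h' (π p) i hi
      rw [π.symm_apply_apply] at this
      exact this
    · exact hle x y π h p i (by rw [← h.length p]; exact hi)
  have hxy : x = y := by
    have h2 : ∀ n, 1 ≤ n → ∀ i < n, x i = y i := by
      intro n hn
      have h1 : P f y (π (List.replicate n 0, (Sum.inl [], 0))).1 (Sum.inl (ini x n)) :=
        h.pres (P_ini x n)
      rw [hnode] at h1
      change Tr f (List.replicate n 0).length (ext (ini x n)) y (lst (List.replicate n 0)) at h1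
      rw [List.length_replicate, lst_replicate] at h1
      exact (h1.mono le_rfl (ext_ini x n) (fun _ _ => rfl) (fun _ _ => le_rfl)).inj hn
    funext i
    exact h2 (i + 1) (by omega) i (by omega)
  refine ⟨hxy, fun p => ?_⟩
  subst hxy
  obtain ⟨s, c⟩ := p
  have h1 := hnode (s, c)
  have h2 := h.ty_eq (s, c)
  generalize π (s, c) = q at h1 h2 ⊢
  obtain ⟨s', c'⟩ := q
  have h1' : s' = s := h1
  subst h1'
  rw [ty_inj x s' h2]

end Q202.EE
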